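import Pool.Agent.Y71.OD.Curve4

/-!
# Project OD, job OD-16: generic zero-cycles on a curve move
-/

set_option autoImplicit false

namespace Pool.Agent.Y71.OD

open Pool.Agent.Y148.OD MvPolynomial

/-- the image of an embedding of the function field -/
theorem hom_mem {Ω : Type} [Field Ω] {k : Subfield Ω} {T : Type} {x : T → Ω}
    (ρ : IntermediateField.adjoin k (Set.range x) →ₐ[k] Ω)
    (y : IntermediateField.adjoin k (Set.range x)) :
    ρ y ∈ adj k (Set.range fun a => ρ ⟨x a, IntermediateField.subset_adjoin _ _ ⟨a, rfl⟩⟩) := by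
  rw [mem_adj_iff]
  obtain ⟨r, s, hrs⟩ := (IntermediateField.mem_adjoin_range_iff k x (y : Ω)).1 y.2
  set xE : T → IntermediateField.adjoin k (Set.range x) :=
    fun a => ⟨x a, IntermediateField.subset_adjoin _ _ ⟨a, rfl⟩⟩ with hxE
  have h2 : ∀ Q : MvPolynomial T k, (aeval x Q : Ω) =
      ((aeval xE Q : IntermediateField.adjoin k (Set.range x)) : Ω) := fun Q =>
    (MvPolynomial.comp_aeval_apply xE (IntermediateField.adjoin k (Set.range x)).val Q).symm
  have h3 : y = aeval xE r / aeval xE s := by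
    apply Subtype.ext
    rw [hrs, h2, h2]
    rfl
  have h4 : ∀ Q : MvPolynomial T k, ρ (aeval xE Q) = aeval (fun a => ρ (xE a)) Q := fun Q =>
    MvPolynomial.comp_aeval_apply xE ρ Q
  rw [IntermediateField.mem_adjoin_range_iff]
  exact ⟨r, s, by rw [h3, map_div₀, h4, h4]⟩

theorem hom_rel {Ω : Type} [Field Ω] {k : Subfield Ω} {T : Type} {x : T → Ω}
    (ρ : IntermediateField.adjoin k (Set.range x) →ₐ[k] Ω) (Q : MvPolynomial T k)
    (hQ : aeval x Q = 0) :
    aeval (fun a => ρ ⟨x a, IntermediateField.subset_adjoin _ _ ⟨a, rfl⟩⟩) Q = 0 := by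
  set xE : T → IntermediateField.adjoin k (Set.range x) :=
    fun a => ⟨x a, IntermediateField.subset_adjoin _ _ ⟨a, rfl⟩⟩ with hxE
  have h1 : (IntermediateField.adjoin k (Set.range x)).val (aeval xE Q) = aeval x Q :=
    MvPolynomial.comp_aeval_apply xE (IntermediateField.adjoin k (Set.range x)).val Q
  have h2 : ρ (aeval xE Q) = aeval (fun a => ρ (xE a)) Q :=
    MvPolynomial.comp_aeval_apply xE ρ Q
  rw [← h1, map_eq_zero_iff _ Subtype.val_injective] at hQ
  rw [← h2, hQ, map_zero]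

/-- conjugation over `K` on the algebraic closure of `K` -/
theorem conj_closure {Ω : Type} [Field Ω] (K k₁ : Subfield Ω) (t : Ω) (hkK : k₁ ≤ K)
    (htK : t ∈ K) {E ι T : Type} (ρ : ι → E → Ω) (hal : ∀ i y, IsAlgebraic K (ρ i y))
    (hσ : ∀ (F : Subfield Ω), k₁ ≤ F → t ∈ F → (∀ i x, ρ i x ∈ F) → ∀ σ : F →+* Ω,
        (∀ x : F, (x : Ω) ∈ k₁ → σ x = x) → (∀ x : F, (x : Ω) = t → σ x = x) →
        ∀ i, ∃ j, ∀ (x : E) (y : F), (y : Ω) = ρ i x → σ y = ρ j x) (xE : T → E)
    (σ : algebraicClosure K Ω →ₐ[K] Ω) (i : ι) :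
    ∃ j, ∀ (a : T) (y : algebraicClosure K Ω), (y : Ω) = ρ i (xE a) → σ y = ρ j (xE a) := by
  have hMmem : ∀ u : Ω, u ∈ (algebraicClosure K Ω).toSubfield ↔ IsAlgebraic K u := fun u =>
    mem_algebraicClosure_iff
  have hKM : ∀ u ∈ K, u ∈ (algebraicClosure K Ω).toSubfield := fun u hu => by
    rw [hMmem]
    exact isAlgebraic_algebraMap (⟨u, hu⟩ : K)
  let σ' : (algebraicClosure K Ω).toSubfield →+* Ω := σ.toRingHom
  have hσK : ∀ (u : (algebraicClosure K Ω).toSubfield), (u : Ω) ∈ K → σ' u = u := by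
    intro u hu
    exact σ.commutes ⟨u, hu⟩
  obtain ⟨j, hj⟩ := hσ (algebraicClosure K Ω).toSubfield (fun u hu => hKM u (hkK hu)) (hKM t htK)
    (fun i y => (hMmem _).2 (hal i y)) σ' (fun u hu => hσK u (hkK hu))
    (fun u hu => hσK u (by rw [hu]; exact htK)) i
  exact ⟨j, fun a y hy => hj (xE a) y hy⟩

/-- OD-16 -/
theorem curve_of (hM : StmMoving) : StmCurve := by
  intro Ω _ _ _ _ T _ V C' k hkc hkac hV hVs hCV hC hCs A _ cl hcl hrat
  classical
  -- the generic point
  obtain ⟨ξ, hξ, hξr⟩ := hC.lower k hkc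
  have hξ0 : ξ ≠ 0 := by
    obtain ⟨S, hS⟩ := hC.closed
    exact ((hS _).1 hξ).1
  obtain ⟨b, hb⟩ : ∃ b, ξ b ≠ 0 := by
    by_contra hcon
    push Not at hcon
    exact hξ0 (funext hcon)
  set x : T → Ω := (ξ b)⁻¹ • ξ with hx
  have hxC : x ∈ C' := hCs _ _ (inv_ne_zero hb) hξ
  have hxb : x b = 1 := by
    show (ξ b)⁻¹ * ξ b = 1
    exact inv_mul_cancel₀ hb
  have hx1 : 1 ≤ rk k (Set.range x) := by
    have h1 : rk k (Set.range ξ) ≤ rk k (Set.range x ∪ {ξ b}) := rk_le_of_subset_adj (by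
      rintro _ ⟨a, rfl⟩
      have h2 : ξ a = ξ b * x a := by
        show ξ a = ξ b * ((ξ b)⁻¹ * ξ a)
        rw [mul_inv_cancel_left₀ hb]
      rw [h2]
      exact mul_mem (subset_adj _ _ (Or.inr rfl)) (subset_adj _ _ (Or.inl ⟨a, rfl⟩)))
    have h2 : ((1 + 1 : ℕ) : ℕ∞) ≤ rk k {ξ b} + rk k (Set.range x) := by
      refine (le_trans ?_ (h1.trans (rk_union_le _ _ _))).trans (add_comm _ _).le
      exact_mod_cast hξr
    have h3 := cancel_aux h2 (by exact_mod_cast rk_singleton_le k (ξ b))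
    exact_mod_cast h3
  have hx2 : rk k (Set.range x) ≤ 1 := by
    have hc : Countable (adj k (Set.range x)) := countable_adj (Set.countable_range _)
    obtain ⟨l, hl⟩ := exists_transcendental (adj k (Set.range x)) hc
    have hl0 : l ≠ 0 := by
      rintro rfl
      exact hl isAlgebraic_zero
    have h1 := (hC.point le_rfl hkc).1 (l • x) (hCs l x hl0 hxC)
    have h2 : rk k (Set.range x ∪ {l}) ≤ rk k (Set.range (l • x)) := rk_le_of_subset_adj (by
      have h3 : l ∈ adj k (Set.range (l • x)) := subset_adj _ _ ⟨b, by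
        show l * x b = l
        rw [hxb, mul_one]⟩
      rintro _ (⟨a, rfl⟩ | rfl)
      · have h4 : x a = (l • x) a / l := by
          show x a = (l * x a) / l
          rw [mul_div_cancel_left₀ _ hl0]
        rw [h4]
        exact div_mem (subset_adj _ _ ⟨a, rfl⟩) h3
      · exact h3)
    rw [rk_adj_union] at h2
    have h3 : 1 ≤ rk (adj k (Set.range x)) {l} := one_le_rk hl rfl
    have h4 : rk k (Set.range x) + 1 ≤ 2 := ((add_le_add le_rfl h3).trans h2).trans h1
    rcases eq_or_ne (rk k (Set.range x)) ⊤ with h | h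
    · rw [h] at h4
      exact absurd h4 (by simp)
    · lift rk k (Set.range x) to ℕ using h with r
      have h5 : r + 1 ≤ 2 := by exact_mod_cast h4
      exact_mod_cast (by omega : r ≤ 1)
  -- the function field
  obtain ⟨e, ρ, k₁, t, hk₁c, hk, ht, hρ, hrk, htρ, hσ⟩ := hM Ω k hkc hkac
    (IntermediateField.adjoin k (Set.range x)) (fg_top (Set.finite_range x))
    (trdeg_eq_one hx1 hx2)
  let xE : T → IntermediateField.adjoin k (Set.range x) :=
    fun a => ⟨x a, IntermediateField.subset_adjoin _ _ ⟨a, rfl⟩⟩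
  set P : Fin (e + 1) → T → Ω := fun i a => ρ i (xE a) with hP
  have hPb : ∀ i, P i b = 1 := by
    intro i
    have h1 : xE b = 1 := Subtype.ext hxb
    show ρ i (xE b) = 1
    rw [h1, map_one]
  -- relations
  have hrel : ∀ i, ∀ Q : MvPolynomial T k, aeval x Q = 0 → aeval (P i) Q = 0 :=
    fun i Q hQ => hom_rel (ρ i) Q hQ
  have hPC : ∀ i, P i ∈ C' := by
    intro i
    obtain ⟨S, hS⟩ := hC.closed
    rw [hS]
    refine ⟨fun h0 => ?_, fun Q hQ => hrel i Q (((hS _).1 hxC).2 Q hQ)⟩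
    have h1 := hPb i
    rw [h0] at h1
    exact zero_ne_one h1
  have hinj : Function.Injective P := by
    intro i j hij
    apply hρ
    apply IntermediateField.adjoin_algHom_ext
    rintro _ ⟨a, rfl⟩
    exact congrFun hij a
  -- the images of the embeddings
  have hmem : ∀ i y, ρ i y ∈ adj k (Set.range (P i)) := fun i y => hom_mem (ρ i) y
  have hrkP : ((e + 1 : ℕ) : ℕ∞) ≤ rk k (coords P) := by
    refine hrk.trans (rk_le_of_subset_adj ?_)
    intro u hu
    obtain ⟨i, y, rfl⟩ := Set.mem_iUnion.1 hu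
    refine adj_le (le_adj_left _ _) ?_ (hmem i y)
    rintro _ ⟨a, rfl⟩
    exact subset_adj _ _ ⟨i, a, rfl⟩
  have htP : ∀ i, t ∈ adj k₁ (Set.range (P i)) := by
    intro i
    refine adj_le (le_adj_left _ _) ?_ (htρ i)
    rintro _ ⟨y, rfl⟩
    refine adj_le (hk.trans (le_adj_left _ _)) (subset_adj _ _) (hmem i y)
  have hrk1 : ∀ i, rk k (Set.range (P i)) ≤ 1 := fun i =>
    (Pool.Agent.Y141.OD.rk_le k k le_rfl x (P i) (hrel i)).trans hx2
  refine ⟨e, move V C' k hV hVs hCV hC hCs cl hcl hrat P hPC hPb hinj hrkP hk₁c hk ht htP hrk1 ?_⟩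
  -- conjugation
  have hal : ∀ i y, IsAlgebraic (adj k₁ {t}) (ρ i y) := by
    intro i y
    have h1 : rk k (Set.range (ρ i)) ≤ 1 := by
      refine le_trans (rk_le_of_subset_adj (S := Set.range (P i)) ?_) (hrk1 i)
      rintro _ ⟨y, rfl⟩
      exact hmem i y
    exact isAlgebraic_adj ht (htρ i) ((rk_anti hk _).trans h1) ⟨y, rfl⟩
  exact fun σ i => conj_closure (adj k₁ {t}) k₁ t (le_adj_left _ _) (subset_adj _ _ rfl)
    (fun i => ρ i) hal hσ xE σ i

end Pool.Agent.Y71.OD
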