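import Pool.Agent.Y148.OD.Stm3
import Pool.Agent.Y148.OD.Core
import Pool.Agent.Y809.OD.Reduce

/-!
# Project OD, job OD-16, part 1: lemmas on transcendence degrees
-/

set_option autoImplicit false

namespace Pool.Agent.Y71.OD

open Pool.Agent.Y148.OD MvPolynomial

variable {Ω : Type} [Field Ω]

theorem mem_adj_iff {K : Subfield Ω} {S : Set Ω} {x : Ω} :
    x ∈ adj K S ↔ x ∈ IntermediateField.adjoin K S := by
  have h : Set.range (algebraMap K Ω) = (K : Set Ω) := Subtype.range_coe
  show x ∈ Subfield.closure ((K : Set Ω) ∪ S) ↔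
    x ∈ Subfield.closure (Set.range (algebraMap K Ω) ∪ S)
  rw [h]

theorem rk_le_of_subset_adj {K : Subfield Ω} {S T : Set Ω} (h : T ⊆ adj K S) :
    rk K T ≤ rk K S := by
  refine rk_le_of_isAlgebraic fun x hx => ?_
  rw [← IntermediateField.isAlgebraic_adjoin_iff]
  exact isAlgebraic_algebraMap
    (⟨x, mem_adj_iff.1 (h hx)⟩ : IntermediateField.adjoin K S)

theorem le_rk_range {L : Subfield Ω} {n : ℕ} {b : Fin n → Ω} (hb : AlgebraicIndependent L b) :
    (n : ℕ∞) ≤ rk L (Set.range b) := by
  rw [le_rk_iff]
  refine ⟨Set.range b, subset_rfl, hb.to_subtype_range, ?_⟩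
  rw [← Set.image_univ, Function.Injective.encard_image hb.injective, Set.encard_univ]
  simp

theorem one_le_rk {L : Subfield Ω} {t : Ω} {S : Set Ω} (ht : Transcendental L t) (htS : t ∈ S) :
    1 ≤ rk L S := by
  rw [le_rk_iff]
  refine ⟨{t}, Set.singleton_subset_iff.2 htS, ?_, Set.encard_singleton t⟩
  exact algebraicIndependent_unique_type_iff.2 ht

theorem rk_singleton_le (L : Subfield Ω) (t : Ω) : rk L {t} ≤ 1 := by
  refine (rk_le_encard _ _).trans ?_
  rw [Set.encard_singleton]

/-- an element of a set of rank `0` is algebraic -/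
theorem isAlgebraic_of_rk {K : Subfield Ω} {S : Set Ω} (h : rk K S = 0) {x : Ω} (hx : x ∈ S) :
    IsAlgebraic K x := by
  by_contra hcon
  have h1 := one_le_rk (L := K) (S := S) hcon hx
  rw [h] at h1
  exact absurd h1 (by simp)

/-- the elements of `S` are algebraic over `adj K {t}`, if `t ∈ adj K S` is transcendental and `S`
has rank at most `1` -/
theorem isAlgebraic_adj {K : Subfield Ω} {S : Set Ω} {t : Ω} (ht : Transcendental K t)
    (htS : t ∈ adj K S) (hS : rk K S ≤ 1) {x : Ω} (hx : x ∈ S) : IsAlgebraic (adj K {t}) x := by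
  refine isAlgebraic_of_rk (S := S) ?_ hx
  have h1 : rk K ({t} ∪ S) ≤ rk K S := rk_le_of_subset_adj (by
    rintro y (rfl | hy)
    · exact htS
    · exact subset_adj _ _ hy)
  rw [rk_adj_union] at h1
  have h2 : 1 ≤ rk K {t} := one_le_rk ht rfl
  have h3 : 1 + rk (adj K {t}) S ≤ 1 := (add_le_add h2 le_rfl).trans (h1.trans hS)
  rcases eq_or_ne (rk (adj K {t}) S) ⊤ with h | h
  · rw [h] at h3
    simp at h3
  · lift rk (adj K {t}) S to ℕ using h with r
    have h4 : 1 + r ≤ 1 := by exact_mod_cast h3
    have h5 : r = 0 := by omega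
    simp [h5]

/-- existence of a transcendental element -/
theorem exists_transcendental [IsAlgClosed Ω] [Uncountable Ω] (L : Subfield Ω)
    (hL : Countable L) : ∃ t : Ω, Transcendental L t := by
  obtain ⟨b, hb⟩ := Pool.Agent.Y141.OD.exists_indep L hL Unit
  exact ⟨b (), hb.transcendental ()⟩

/-- the field generated by a set of rank one -/
theorem trdeg_eq_one {k : Subfield Ω} {S : Set Ω} (h1 : 1 ≤ rk k S) (h2 : rk k S ≤ 1) :
    Algebra.trdeg k (IntermediateField.adjoin k S) = 1 := by
  apply le_antisymm
  · refine ciSup_le' fun s => ?_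
    obtain ⟨s, hs⟩ := s
    show Cardinal.mk s ≤ 1
    rw [Cardinal.mk_le_one_iff_set_subsingleton, ← Set.encard_le_one_iff_subsingleton]
    set ι : IntermediateField.adjoin k S → Ω := Subtype.val with hι
    have hinj : Function.Injective ι := Subtype.val_injective
    have h3 : AlgebraicIndependent k (fun a : s => ι a) := by
      have h4 : AlgebraicIndependent k ((↑) : s → IntermediateField.adjoin k S) := hs
      exact h4.map' (f := (IntermediateField.adjoin k S).val) hinj
    have h5 : ((ι '' s).encard) ≤ rk k S := by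
      refine le_trans ?_ (rk_le_of_subset_adj (T := ι '' s) (K := k) (S := S) ?_)
      · rw [le_rk_iff]
        refine ⟨ι '' s, subset_rfl, ?_, rfl⟩
        have h6 := h3.to_subtype_range
        have h7 : Set.range (fun a : s => ι a) = ι '' s := by
          ext z
          simp
        rw [h7] at h6
        exact h6
      · rintro _ ⟨a, -, rfl⟩
        exact mem_adj_iff.2 a.2
    rw [hinj.encard_image] at h5
    exact h5.trans h2
  · rw [le_rk_iff] at h1
    obtain ⟨I, hI1, hI2, hI3⟩ := h1
    rw [Set.encard_eq_one] at hI3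
    obtain ⟨t, rfl⟩ := hI3
    have ht : t ∈ S := hI1 rfl
    have h3 : Transcendental k t := by
      have h4 : AlgebraicIndependent k ((↑) : ({t} : Set Ω) → Ω) := hI2
      exact h4.transcendental ⟨t, rfl⟩
    have hz : t ∈ IntermediateField.adjoin k S := IntermediateField.subset_adjoin _ _ ht
    have h4 : Transcendental k (⟨t, hz⟩ : IntermediateField.adjoin k S) := by
      rw [← transcendental_algebraMap_iff (R := k)
        (FaithfulSMul.algebraMap_injective (IntermediateField.adjoin k S) Ω)]
      exact h3
    have : Algebra.Transcendental k (IntermediateField.adjoin k S) := ⟨_, h4⟩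
    exact Cardinal.one_le_iff_pos.2 (trdeg_pos k (IntermediateField.adjoin k S))

theorem fg_top {k : Subfield Ω} {S : Set Ω} (hS : S.Finite) :
    (⊤ : IntermediateField k (IntermediateField.adjoin k S)).FG := by
  rw [IntermediateField.fg_top_iff, IntermediateField.essFiniteType_iff]
  exact IntermediateField.fg_adjoin_of_finite hS

end Pool.Agent.Y71.OD
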