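import Pool.Agent.Y71.OD.Curve1

/-!
# Project OD, job OD-16, part 2: conjugation and denominators
-/

set_option autoImplicit false

namespace Pool.Agent.Y71.OD

open Pool.Agent.Y148.OD MvPolynomial

theorem map_lin {K L : Type} [Field K] [Field L] {τ : Type} [Fintype τ] (f : K →+* L)
    (v : τ → K) : MvPolynomial.map f (lin v) = lin (fun a => f (v a)) := by
  unfold lin
  rw [map_sum]
  refine Finset.sum_congr rfl fun a _ => ?_
  rw [map_mul, map_C, map_X]

theorem map_prod_lin {K L : Type} [Field K] [Field L] {τ : Type} [Fintype τ] {n : ℕ} (f : K →+* L)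
    (v : Fin n → τ → K) :
    MvPolynomial.map f (∏ i, lin (v i)) = ∏ i, lin (fun a => f (v i a)) := by
  rw [map_prod]
  exact Finset.prod_congr rfl fun i _ => map_lin f (v i)

variable {Ω : Type} [Field Ω]

/-- the coefficients of the product of the conjugate linear forms are in the ground field -/
theorem coeff_mem [IsAlgClosed Ω] [CharZero Ω] {τ : Type} [Fintype τ] {n : ℕ} (K : Subfield Ω)
    (P : Fin n → τ → Ω) (hP : Function.Injective P) (hal : ∀ i a, IsAlgebraic K (P i a))
    (hσ : ∀ σ : algebraicClosure K Ω →ₐ[K] Ω, ∀ i, ∃ j, ∀ (a : τ) (y : algebraicClosure K Ω),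
      (y : Ω) = P i a → σ y = P j a) (α : τ →₀ ℕ) : coeff α (∏ i, lin (P i)) ∈ K := by
  classical
  set M := algebraicClosure K Ω with hM
  let PM : Fin n → τ → M := fun i a => ⟨P i a, (mem_algebraicClosure_iff).2 (hal i a)⟩
  set c : M := coeff α (∏ i, lin (PM i)) with hc
  have hc1 : (c : Ω) = coeff α (∏ i, lin (P i)) := by
    have h1 : (c : Ω) = M.val.toRingHom c := rfl
    rw [h1, hc, ← coeff_map, map_prod_lin]
    rfl
  rw [← hc1]
  have hint : ∀ y : M, IsIntegral K y := fun y => Algebra.IsIntegral.isIntegral y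
  have hcint : IsIntegral K (c : Ω) := (hint c).map M.val
  have hsep : IsSeparable K (c : Ω) := (minpoly.irreducible hcint).separable
  by_contra hcon
  have hbot : (c : Ω) ∉ (⊥ : Subalgebra K Ω) := by
    intro h
    rw [Algebra.mem_bot] at h
    obtain ⟨z, hz⟩ := h
    apply hcon
    rw [← hz]
    exact z.2
  obtain ⟨y, hy1, hy2⟩ := (notMem_iff_exists_ne_and_isConjRoot hsep
    (IsAlgClosed.splits _)).1 hbot
  have hy3 := hy2.aeval_eq_zero
  have hmin : minpoly K (c : Ω) = minpoly K c :=
    minpoly.algHom_eq M.val Subtype.val_injective c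
  rw [hmin] at hy3
  obtain ⟨φ, hφ⟩ := IntermediateField.exists_algHom_of_splits_of_aeval (F := K) (E := M) (K := Ω)
    (fun s => ⟨hint s, IsAlgClosed.splits _⟩) hy3
  choose π hπ using hσ φ
  have hφP : ∀ i, (fun a => φ (PM i a)) = P (π i) := fun i => funext fun a => hπ i a (PM i a) rfl
  have hπi : Function.Injective π := by
    intro i j hij
    apply hP
    funext a
    have h1 : φ (PM i a) = φ (PM j a) := by
      have h2 := congrFun (hφP i) a
      have h3 := congrFun (hφP j) a
      exact h2.trans (by rw [hij]; exact h3.symm)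
    exact congrArg Subtype.val (φ.toRingHom.injective h1)
  have hπb : Function.Bijective π := Finite.injective_iff_bijective.1 hπi
  have h1 : φ c = coeff α (∏ i, lin (P i)) := by
    have h2 : φ c = φ.toRingHom c := rfl
    rw [h2, hc, ← coeff_map, map_prod_lin]
    congr 1
    rw [← Equiv.prod_comp (Equiv.ofBijective π hπb) (fun i => lin (P i))]
    refine Finset.prod_congr rfl fun i _ => ?_
    congr 1
    exact hφP i
  apply hy1
  rw [hc1, ← h1, hφ]

theorem exists_den {k₁ : Subfield Ω} {t z : Ω} (hz : z ∈ adj k₁ {t}) :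
    ∃ r s : Polynomial k₁, Polynomial.aeval t s ≠ 0 ∧
      Polynomial.aeval t s * z = Polynomial.aeval t r := by
  rw [mem_adj_iff, IntermediateField.mem_adjoin_simple_iff] at hz
  obtain ⟨r, s, rfl⟩ := hz
  by_cases hs : Polynomial.aeval t s = 0
  · refine ⟨0, 1, ?_, ?_⟩
    · rw [map_one]
      exact one_ne_zero
    · rw [hs, div_zero, mul_zero, map_zero]
  · exact ⟨r, s, hs, mul_div_cancel₀ _ hs⟩

/-- clearing denominators -/
theorem clear_den {τ : Type} (k₁ : Subfield Ω) (t : Ω) (N : MvPolynomial τ Ω)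
    (hN : ∀ α, coeff α N ∈ adj k₁ {t}) :
    ∃ (F : Polynomial (MvPolynomial τ k₁)) (q : Ω), q ∈ adj k₁ {t} ∧ q ≠ 0 ∧
      F.eval₂ (MvPolynomial.map k₁.subtype) (C t) = C q * N := by
  classical
  choose r s hs0 hs using fun α => exists_den (hN α)
  set d : Polynomial k₁ := ∏ α ∈ N.support, s α with hd
  set f : (τ →₀ ℕ) → Polynomial k₁ := fun α => (∏ β ∈ N.support.erase α, s β) * r α with hf
  have h1 : ∀ α ∈ N.support, Polynomial.aeval t d * coeff α N = Polynomial.aeval t (f α) := by
    intro α hα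
    rw [hd, hf, ← Finset.prod_erase_mul _ _ hα, map_mul, mul_assoc, hs, ← map_mul]
  have h2 : ∀ g : Polynomial k₁, (g.map (C : k₁ →+* MvPolynomial τ k₁)).eval₂
      (MvPolynomial.map k₁.subtype) (C t) = C (Polynomial.aeval t g) := by
    intro g
    rw [Polynomial.eval₂_map, Polynomial.aeval_def, Polynomial.hom_eval₂]
    congr 1
    ext x
    simp
    rfl
  refine ⟨∑ α ∈ N.support, (f α).map C * Polynomial.C (monomial α 1), Polynomial.aeval t d,
    ?_, ?_, ?_⟩
  · rw [mem_adj_iff]
    exact IntermediateField.algebra_adjoin_le_adjoin _ _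
      (Polynomial.aeval_mem_adjoin_singleton _ _)
  · rw [hd, map_prod, Finset.prod_ne_zero_iff]
    exact fun α _ => hs0 α
  · rw [Polynomial.eval₂_finsetSum]
    conv_rhs => rw [N.as_sum, Finset.mul_sum]
    refine Finset.sum_congr rfl fun α hα => ?_
    rw [Polynomial.eval₂_mul, h2, Polynomial.eval₂_C, ← h1 α hα, C_mul, mul_assoc]
    congr 1
    rw [map_monomial, map_one, C_mul_monomial, mul_one]

end Pool.Agent.Y71.OD
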