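import Pool.Agent.Y71.OD.Curve2

/-!
# Project OD, job OD-16, part 3: the family of zero-cycles
-/

set_option autoImplicit false

namespace Pool.Agent.Y71.OD

open Pool.Agent.Y148.OD MvPolynomial

variable {Ω : Type} [Field Ω]

theorem trans_anti {K L : Subfield Ω} (h : K ≤ L) {t : Ω} (ht : Transcendental L t) :
    Transcendental K t := by
  intro hal
  apply ht
  let _ : Algebra K L := (Subfield.inclusion h).toAlgebra
  have : IsScalarTower K L Ω := IsScalarTower.of_algebraMap_eq fun x => rfl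
  exact hal.extendScalars (Subfield.inclusion h).injective

theorem trans_eval₂ {K : Subfield Ω} {t : Ω} (ht : Transcendental K t) :
    ∀ p : Polynomial K, p.eval₂ K.subtype t = 0 → p = 0 :=
  fun p hp => (transcendental_iff.1 ht) p hp

/-- embeddings moving a transcendental element -/
theorem exists_conj [IsAlgClosed Ω] [Uncountable Ω] {k₁ K₂ : Subfield Ω} (hK₂ : Countable K₂)
    (h : k₁ ≤ K₂) {t t' : Ω} (htK : t ∈ K₂) (ht : Transcendental k₁ t)
    (ht' : Transcendental k₁ t') :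
    ∃ σ : K₂ →+* Ω, (∀ x : k₁, σ (Subfield.inclusion h x) = x) ∧ σ ⟨t, htK⟩ = t' := by
  let f0 : Polynomial k₁ →+* K₂ := Polynomial.eval₂RingHom (Subfield.inclusion h) ⟨t, htK⟩
  let g0 : Polynomial k₁ →+* Ω := Polynomial.eval₂RingHom k₁.subtype t'
  have hf0 : Function.Injective f0 := by
    rw [injective_iff_map_eq_zero]
    intro p hp
    refine trans_eval₂ ht p ?_
    have h1 : K₂.subtype (f0 p) = 0 := by rw [hp, map_zero]
    have h2 : K₂.subtype (p.eval₂ (Subfield.inclusion h) ⟨t, htK⟩) = 0 := h1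
    rw [Polynomial.hom_eval₂] at h2
    exact h2
  have hg0 : Function.Injective g0 := by
    rw [injective_iff_map_eq_zero]
    intro p hp
    exact trans_eval₂ ht' p hp
  obtain ⟨σ, hσ⟩ := stmHom Ω (FractionRing (Polynomial k₁)) K₂
    (IsFractionRing.lift (A := Polynomial k₁) hf0) (IsFractionRing.lift (A := Polynomial k₁) hg0)
  have h1 : ∀ p, σ (f0 p) = g0 p := by
    intro p
    have h2 := RingHom.congr_fun hσ (algebraMap (Polynomial k₁) _ p)
    rw [RingHom.comp_apply, IsFractionRing.lift_algebraMap, IsFractionRing.lift_algebraMap] at h2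
    exact h2
  refine ⟨σ, fun x => ?_, ?_⟩
  · have h2 := h1 (Polynomial.C x)
    have h3 : f0 (Polynomial.C x) = Subfield.inclusion h x := Polynomial.eval₂_C _ _
    have h4 : g0 (Polynomial.C x) = x := Polynomial.eval₂_C _ _
    rwa [h3, h4] at h2
  · have h2 := h1 Polynomial.X
    have h3 : f0 Polynomial.X = ⟨t, htK⟩ := Polynomial.eval₂_X _ _
    have h4 : g0 Polynomial.X = t' := Polynomial.eval₂_X _ _
    rwa [h3, h4] at h2

/-- the values and the leading coefficient of a family over `k₁` with one generic value -/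
theorem family [IsAlgClosed Ω] [Uncountable Ω] {τ : Type} [Fintype τ]
    (V : Set (τ → Ω)) (k : Subfield Ω)
    (hV : ∃ S : Set (MvPolynomial τ k), ∀ v : τ → Ω, v ∈ V ↔ v ≠ 0 ∧ ∀ P ∈ S, aeval v P = 0)
    (hVs : ∀ (c : Ω) (v : τ → Ω), c ≠ 0 → v ∈ V → c • v ∈ V)
    {k₁ : Subfield Ω} (hk : k ≤ k₁) (hk₁ : Countable k₁) {t : Ω} (ht : Transcendental k₁ t)
    {n : ℕ} (F : Polynomial (MvPolynomial τ k₁))
    (h : IsCyc (vlin V) n (F.eval₂ (MvPolynomial.map k₁.subtype) (C t))) :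
    (∀ s : Ω, IsCyc (vlin V) n ((F.map (MvPolynomial.map k₁.subtype)).eval (C s))) ∧
      IsCyc (vlin V) n (F.map (MvPolynomial.map k₁.subtype)).leadingCoeff := by
  have hkk : ∀ a : k, ∃ u : k₁, k₁.subtype u = a ∧ k₁.subtype u = a :=
    fun a => ⟨⟨a, hk a.2⟩, rfl, rfl⟩
  have h1 : ∀ s : Ω, IsCyc (vlin V) n ((F.map (MvPolynomial.map k₁.subtype)).eval (C s)) := by
    intro s
    rw [Polynomial.eval_map]
    exact Pool.Agent.Y809.OD.spec1 V k hV hVs k₁.subtype k₁.subtype hkk t s (trans_eval₂ ht) n F h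
  refine ⟨h1, ?_⟩
  have ht0 : t ≠ 0 := by
    rintro rfl
    exact ht isAlgebraic_zero
  have hmi : Function.Injective (MvPolynomial.map (σ := τ) k₁.subtype) :=
    map_injective _ k₁.subtype.injective
  have h2 := Pool.Agent.Y809.OD.reverse_cyc (F.map (MvPolynomial.map k₁.subtype))
    (fun s _ => h1 s) t ht0
  rw [Pool.Agent.Y809.OD.reverse_map' _ hmi, Polynomial.eval_map] at h2
  have h3 := Pool.Agent.Y809.OD.spec1 V k hV hVs k₁.subtype k₁.subtype hkk t 0 (trans_eval₂ ht) n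
    F.reverse h2
  rw [← Polynomial.eval_map, ← Pool.Agent.Y809.OD.reverse_map' _ hmi, C_0,
    ← Polynomial.coeff_zero_eq_eval_zero, Polynomial.coeff_zero_reverse] at h3
  exact h3

theorem ratStep_of {τ : Type} [Fintype τ] {P : Type} {ℓ : P → MvPolynomial τ Ω} {n : ℕ}
    {F : Polynomial (MvPolynomial τ Ω)} (h : ∀ s : Ω, IsCyc ℓ n (F.eval (C s))) {w : Fin n → P}
    {c : Ω} (hc : c ≠ 0) (hw : F.leadingCoeff = C c * chow ℓ w) {s q : Ω} (hq : q ≠ 0)
    {x : Fin n → P} (hx : F.eval (C s) = C q * chow ℓ x) : RatStep ℓ n x w := by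
  refine ⟨q, c, hq, hc, Polynomial.taylor (C s) F, ?_, ?_, fun u => ?_⟩
  · rw [Polynomial.taylor_coeff_zero, hx]
  · rw [Polynomial.leadingCoeff_taylor, hw]
  · rw [Polynomial.taylor_eval, ← C_add]
    exact h _

theorem ratSub_of {τ : Type} [Fintype τ] {P : Type} {ℓ : P → MvPolynomial τ Ω} {n : ℕ}
    {x y : Fin n → P} (h : RatStep ℓ n x y) :
    ∑ i, FreeAbelianGroup.of (x i) - ∑ i, FreeAbelianGroup.of (y i) ∈ ratSub ℓ :=
  AddSubgroup.subset_closure ⟨n, x, y, h, rfl⟩

end Pool.Agent.Y71.OD
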