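import Pool.Agent.Y71.OD.Curve3

/-!
# Project OD, job OD-16, part 4: moving the generic zero-cycle
-/

set_option autoImplicit false

namespace Pool.Agent.Y71.OD

open Pool.Agent.Y148.OD MvPolynomial

variable {Ω : Type} [Field Ω]

/-- transport of an element of `adj k₁ S` by an embedding -/
theorem conj_mem {k₁ K₂ : Subfield Ω} (h : k₁ ≤ K₂) (σ : K₂ →+* Ω)
    (hσ : ∀ x : k₁, σ (Subfield.inclusion h x) = x) {κ : Type} (p : κ → K₂) {t : Ω}
    (ht : t ∈ adj k₁ (Set.range fun a => (p a : Ω))) (htK : t ∈ K₂) :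
    σ ⟨t, htK⟩ ∈ adj k₁ (Set.range fun a => σ (p a)) := by
  have h1 : adj k₁ (Set.range fun a => (p a : Ω)) ≤
      ((adj k₁ (Set.range fun a => σ (p a))).comap σ).map K₂.subtype := by
    refine adj_le (fun x hx => ?_) ?_
    · refine ⟨⟨x, h hx⟩, ?_, rfl⟩
      show σ _ ∈ adj k₁ _
      have h2 : σ (Subfield.inclusion h ⟨x, hx⟩) = x := hσ ⟨x, hx⟩
      have h3 : σ ⟨x, h hx⟩ = x := h2
      rw [h3]
      exact le_adj_left _ _ hx
    · rintro _ ⟨a, rfl⟩
      exact ⟨p a, subset_adj _ _ ⟨a, rfl⟩, rfl⟩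
  obtain ⟨y, hy, hyt⟩ := h1 ht
  have h2 : (⟨t, htK⟩ : K₂) = y := Subtype.ext hyt.symm
  rw [h2]
  exact hy

theorem move [IsAlgClosed Ω] [Uncountable Ω] [CharZero Ω] {τ : Type} [Fintype τ]
    (V C' : Set (τ → Ω)) (k : Subfield Ω)
    (hV : ∃ S : Set (MvPolynomial τ k), ∀ v : τ → Ω, v ∈ V ↔ v ≠ 0 ∧ ∀ P ∈ S, aeval v P = 0)
    (hVs : ∀ (c : Ω) (v : τ → Ω), c ≠ 0 → v ∈ V → c • v ∈ V) (hCV : C' ⊆ V)
    (hC : Setup k C' 2) (hCs : ∀ (c : Ω) (v : τ → Ω), c ≠ 0 → v ∈ C' → c • v ∈ C')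
    {A : Type} [AddCommGroup A] (cl : (τ → Ω) → A)
    (hcl : ∀ (c : Ω) (v : τ → Ω), c ≠ 0 → v ∈ V → cl (c • v) = cl v)
    (hrat : ∀ (n : ℕ) (x y : Fin n → V), ∑ i, FreeAbelianGroup.of (x i) -
        ∑ i, FreeAbelianGroup.of (y i) ∈ ratSub (vlin V) → ∑ i, cl (x i) = ∑ i, cl (y i))
    {e : ℕ} (P : Fin (e + 1) → τ → Ω) (hPC : ∀ i, P i ∈ C') {b : τ} (hPb : ∀ i, P i b = 1)
    (hinj : Function.Injective P) (hrk : ((e + 1 : ℕ) : ℕ∞) ≤ rk k (coords P))
    {k₁ : Subfield Ω} (hk₁ : Countable k₁) (hk : k ≤ k₁) {t : Ω} (ht : Transcendental k₁ t)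
    (htP : ∀ i, t ∈ adj k₁ (Set.range (P i))) (hrk1 : ∀ i, rk k (Set.range (P i)) ≤ 1)
    (hσ : ∀ σ : algebraicClosure (adj k₁ {t}) Ω →ₐ[adj k₁ {t}] Ω, ∀ i, ∃ j, ∀ (a : τ)
      (y : algebraicClosure (adj k₁ {t}) Ω), (y : Ω) = P i a → σ y = P j a) :
    GenMove k C' 2 cl e := by
  classical
  have hPV : ∀ i, P i ∈ V := fun i => hCV (hPC i)
  -- the family
  have hal : ∀ i a, IsAlgebraic (adj k₁ {t}) (P i a) := fun i a =>
    isAlgebraic_adj ht (htP i) ((rk_anti hk _).trans (hrk1 i)) ⟨a, rfl⟩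
  obtain ⟨F, q, hqm, hq0, hF⟩ := clear_den k₁ t (∏ i, lin (P i))
    (coeff_mem (adj k₁ {t}) P hinj hal hσ)
  obtain ⟨hfam, c, w, hw⟩ := family V k hV hVs hk hk₁ ht F
    ⟨q, fun i => (⟨P i, hPV i⟩ : V), hF⟩
  set F' := F.map (MvPolynomial.map k₁.subtype) with hF'
  have hFt : F'.eval (C t) = C q * chow (vlin V) (fun i => (⟨P i, hPV i⟩ : V)) := by
    rw [hF', Polynomial.eval_map]
    exact hF
  have hP0 : ∏ i, lin (P i) ≠ 0 := by
    rw [Finset.prod_ne_zero_iff]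
    intro i _
    refine Pool.Agent.Y809.OD.lin_ne_zero fun h0 => ?_
    have h1 := hPb i
    rw [h0] at h1
    exact zero_ne_one h1
  have hF0 : F' ≠ 0 := by
    intro h0
    rw [h0, Polynomial.eval_zero] at hFt
    have h1 : C q * ∏ i, lin (P i) = 0 := hFt.symm
    rw [mul_eq_zero] at h1
    rcases h1 with h1 | h1
    · exact hq0 (C_injective _ _ (by rw [h1, C_0]))
    · exact hP0 h1
  have hc0 : c ≠ 0 := by
    rintro rfl
    rw [C_0, zero_mul, Polynomial.leadingCoeff_eq_zero] at hw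
    exact hF0 hw
  -- the fields
  set K₂ : Subfield Ω := adj k₁ ({t} ∪ coords P) with hK₂
  have hK₂c : Countable K₂ :=
    countable_adj ((Set.countable_singleton t).union (countable_coords P))
  have hk₁K₂ : k₁ ≤ K₂ := le_adj_left _ _
  have htK₂ : t ∈ K₂ := subset_adj _ _ (Or.inl rfl)
  have hPK₂ : ∀ i a, P i a ∈ K₂ := fun i a => subset_adj _ _ (Or.inr ⟨i, a, rfl⟩)
  obtain ⟨lam, hlam⟩ := Pool.Agent.Y141.OD.exists_indep K₂ hK₂c (Fin (e + 1))
  set L₂ : Subfield Ω := adj K₂ (Set.range lam) with hL₂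
  have hL₂c : Countable L₂ := countable_adj (Set.countable_range _)
  obtain ⟨t', ht'⟩ := exists_transcendental L₂ hL₂c
  have hK₂L₂ : K₂ ≤ L₂ := le_adj_left _ _
  obtain ⟨σ, hσ1, hσt⟩ := exists_conj hK₂c hk₁K₂ htK₂ ht (trans_anti (hk₁K₂.trans hK₂L₂) ht')
  let PK : Fin (e + 1) → τ → K₂ := fun i a => ⟨P i a, hPK₂ i a⟩
  set P' : Fin (e + 1) → τ → Ω := fun i a => σ (PK i a) with hP'
  have hP'b : ∀ i, P' i b = 1 := by
    intro i
    have h1 : PK i b = 1 := Subtype.ext (hPb i)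
    show σ (PK i b) = 1
    rw [h1, map_one]
  have hP'C : ∀ i, P' i ∈ C' := by
    intro i
    obtain ⟨S, hS⟩ := hC.closed
    rw [hS]
    refine ⟨fun h0 => ?_, fun Q hQ => ?_⟩
    · have h1 := hP'b i
      rw [h0] at h1
      exact zero_ne_one h1
    · have h1 := ((hS _).1 (hPC i)).2 Q hQ
      have h2 : K₂.subtype (eval₂ (Subfield.inclusion (hk.trans hk₁K₂)) (PK i) Q) = 0 := by
        rw [hom_eval₂]
        exact h1
      have h3 : eval₂ (Subfield.inclusion (hk.trans hk₁K₂)) (PK i) Q = 0 :=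
        (map_eq_zero_iff _ K₂.subtype.injective).1 h2
      have h4 : σ (eval₂ (Subfield.inclusion (hk.trans hk₁K₂)) (PK i) Q) = 0 := by
        rw [h3, map_zero]
      rw [hom_eval₂] at h4
      have h5 : σ.comp (Subfield.inclusion (hk.trans hk₁K₂)) = algebraMap k Ω := by
        ext x
        exact hσ1 (Subfield.inclusion hk x)
      rw [h5] at h4
      exact h4
  have hP'V : ∀ i, P' i ∈ V := fun i => hCV (hP'C i)
  have htP' : ∀ i, t' ∈ adj k₁ (Set.range (P' i)) := by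
    intro i
    rw [← hσt]
    exact conj_mem hk₁K₂ σ hσ1 (PK i) (htP i) htK₂
  -- the conjugate value of the family
  have hqK₂ : q ∈ K₂ := (adj_le hk₁K₂ (Set.singleton_subset_iff.2 htK₂)) hqm
  have hFK : F.eval₂ (MvPolynomial.map (Subfield.inclusion hk₁K₂)) (C (⟨t, htK₂⟩ : K₂)) =
      C (⟨q, hqK₂⟩ : K₂) * ∏ i, lin (PK i) := by
    apply map_injective (σ := τ) K₂.subtype K₂.subtype.injective
    rw [Polynomial.hom_eval₂, map_C, map_mul, map_C, map_prod_lin]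
    have h1 : (MvPolynomial.map (σ := τ) K₂.subtype).comp
        (MvPolynomial.map (Subfield.inclusion hk₁K₂)) = MvPolynomial.map k₁.subtype := by
      refine RingHom.ext fun x => ?_
      rw [RingHom.comp_apply, map_map]
      rfl
    rw [h1]
    exact hF
  have hFt' : F'.eval (C t') = C (σ ⟨q, hqK₂⟩) *
      chow (vlin V) (fun i => (⟨P' i, hP'V i⟩ : V)) := by
    have h1 := congrArg (MvPolynomial.map σ) hFK
    rw [Polynomial.hom_eval₂, map_C, map_mul, map_C, map_prod_lin, hσt] at h1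
    have h2 : (MvPolynomial.map (σ := τ) σ).comp
        (MvPolynomial.map (Subfield.inclusion hk₁K₂)) = MvPolynomial.map k₁.subtype := by
      refine RingHom.ext fun x => ?_
      have h3 : σ.comp (Subfield.inclusion hk₁K₂) = k₁.subtype := RingHom.ext hσ1
      rw [RingHom.comp_apply, map_map, h3]
    rw [h2] at h1
    rw [hF', Polynomial.eval_map]
    exact h1
  have hq'0 : σ ⟨q, hqK₂⟩ ≠ 0 := by
    rw [map_ne_zero_iff _ σ.injective]
    exact fun h => hq0 (congrArg Subtype.val h)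
  -- the classes
  have hsum : ∑ i, cl (P i) = ∑ i, cl (P' i) := by
    have h1 := hrat (e + 1) _ _ (ratSub_of (ratStep_of hfam hc0 hw hq0 hFt))
    have h2 := hrat (e + 1) _ _ (ratSub_of (ratStep_of hfam hc0 hw hq'0 hFt'))
    exact h1.trans h2.symm
  -- the multipliers
  set L₃ : Subfield Ω := adj L₂ (coords P') with hL₃
  have hL₃c : Countable L₃ := countable_adj (countable_coords P')
  obtain ⟨mu, hmu⟩ := Pool.Agent.Y141.OD.exists_indep L₃ hL₃c (Fin (e + 1))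
  have hlam0 : ∀ i, lam i ≠ 0 := fun i => hlam.ne_zero i
  have hmu0 : ∀ i, mu i ≠ 0 := fun i => hmu.ne_zero i
  set z : Fin (e + 1) → τ → Ω := fun i => lam i • P i with hz
  set y : Fin (e + 1) → τ → Ω := fun i => mu i • P' i with hy
  have hzb : ∀ i, z i b = lam i := fun i => by
    show lam i * P i b = lam i
    rw [hPb, mul_one]
  have hyb : ∀ i, y i b = mu i := fun i => by
    show mu i * P' i b = mu i
    rw [hP'b, mul_one]
  refine ⟨z, y, fun i => hCs _ _ (hlam0 i) (hPC i), fun i => hCs _ _ (hmu0 i) (hP'C i), ?_, ?_, ?_⟩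
  · calc ∑ i, cl (z i) = ∑ i, cl (P i) :=
          Finset.sum_congr rfl fun i _ => hcl _ _ (hlam0 i) (hPV i)
      _ = ∑ i, cl (P' i) := hsum
      _ = ∑ i, cl (y i) :=
          (Finset.sum_congr rfl fun i _ => hcl _ _ (hmu0 i) (hP'V i)).symm
  · have h1 : Set.range lam ∪ coords P ⊆ adj k (coords z) := by
      have h2 : ∀ i, lam i ∈ adj k (coords z) := fun i => by
        rw [← hzb]
        exact subset_adj _ _ ⟨i, b, rfl⟩
      rintro x (⟨i, rfl⟩ | ⟨i, a, rfl⟩)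
      · exact h2 i
      · have h3 : P i a = z i a / lam i := by
          show P i a = (lam i * P i a) / lam i
          rw [mul_div_cancel_left₀ _ (hlam0 i)]
        rw [h3]
        exact div_mem (subset_adj _ _ ⟨i, a, rfl⟩) (h2 i)
    refine le_trans ?_ (rk_le_of_subset_adj h1)
    rw [rk_union]
    have h2 : ((e + 1 : ℕ) : ℕ∞) ≤ rk (adj k (coords P)) (Set.range lam) := by
      refine (le_rk_range hlam).trans (rk_anti ?_ _)
      exact adj_le (hk.trans hk₁K₂) (by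
        rintro x ⟨i, a, rfl⟩
        exact hPK₂ i a)
    refine le_trans (le_of_eq ?_) (add_le_add hrk h2)
    push_cast
    ring
  · have h1 : adj k (coords z) ≤ L₂ := adj_le ((hk.trans hk₁K₂).trans hK₂L₂) (by
      rintro x ⟨i, a, rfl⟩
      show lam i * P i a ∈ L₂
      exact mul_mem (subset_adj _ _ ⟨i, rfl⟩) (hK₂L₂ (hPK₂ i a)))
    refine lt_of_lt_of_le ?_ (rk_anti h1 _)
    have h2 : Set.range mu ∪ coords P' ⊆ adj L₂ (coords y) := by
      have h2 : ∀ i, mu i ∈ adj L₂ (coords y) := fun i => by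
        rw [← hyb]
        exact subset_adj _ _ ⟨i, b, rfl⟩
      rintro x (⟨i, rfl⟩ | ⟨i, a, rfl⟩)
      · exact h2 i
      · have h3 : P' i a = y i a / mu i := by
          show P' i a = (mu i * P' i a) / mu i
          rw [mul_div_cancel_left₀ _ (hmu0 i)]
        rw [h3]
        exact div_mem (subset_adj _ _ ⟨i, a, rfl⟩) (h2 i)
    refine lt_of_lt_of_le ?_ (rk_le_of_subset_adj h2)
    rw [rk_union]
    have h3 : ((e + 1 : ℕ) : ℕ∞) ≤ rk (adj L₂ (coords P')) (Set.range mu) := le_rk_range hmu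
    have h4 : 1 ≤ rk L₂ (coords P') := by
      refine (one_le_rk ht' (Set.mem_singleton t')).trans (rk_le_of_subset_adj ?_)
      rw [Set.singleton_subset_iff]
      refine adj_le ((hk₁K₂.trans hK₂L₂).trans (le_adj_left _ _)) ?_ (htP' 0)
      rintro x ⟨a, rfl⟩
      exact subset_adj _ _ ⟨0, a, rfl⟩
    refine lt_of_lt_of_le ?_ (add_le_add h4 h3)
    have h5 : (1 : ℕ∞) + ((e + 1 : ℕ) : ℕ∞) = ((1 + (e + 1) : ℕ) : ℕ∞) := by push_cast; rfl
    rw [h5]
    exact_mod_cast (by omega : e + 1 < 1 + (e + 1))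

end Pool.Agent.Y71.OD
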